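import Pool.Agent.Q155.BZ.Stm

set_option autoImplicit false

/-!
BZ-8: Abelian lemma.
-/

open Set Filter Topology MeasureTheory

namespace Pool.Agent.Q208.BZ

open Pool.Agent.Q155.BZ

theorem abel : S_ABEL := by
  intro K C β hK hK0 hβ hT
  have hΓ : 0 < Real.Gamma (β + 1) := Real.Gamma_pos_of_pos (by linarith)
  -- the primitive
  obtain ⟨G, hG⟩ : ∃ G : ℝ → ℝ, G = fun t => ∫ x in (0 : ℝ)..t, K x := ⟨_, rfl⟩
  have hint : ∀ x y : ℝ, IntervalIntegrable K volume x y := fun x y => hK.intervalIntegrable x y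
  have hGd : ∀ t, HasDerivAt G (K t) t := by
    intro t
    rw [hG]
    exact intervalIntegral.integral_hasDerivAt_right (hint 0 t)
      (hK.stronglyMeasurableAtFilter _ _) hK.continuousAt
  have hGc : Continuous G := continuous_iff_continuousAt.2 fun t => (hGd t).continuousAt
  have hG0 : G 0 = 0 := by rw [hG]; simp
  have hGn : ∀ t, 0 ≤ t → 0 ≤ G t := by
    intro t ht
    rw [hG]
    exact intervalIntegral.integral_nonneg ht fun x _ => hK0 x
  have hG1 : G 1 ≤ C := by
    have := hT 1 le_rfl
    rw [Real.one_rpow, mul_one] at this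
    rw [hG]
    exact this
  have hC0 : 0 ≤ C := (hGn 1 zero_le_one).trans hG1
  have hGle : ∀ t, 0 ≤ t → G t ≤ C * (1 + t ^ β) := by
    intro t ht
    rcases le_total 1 t with h | h
    · have := hT t h
      rw [hG]
      refine this.trans ?_
      have : 0 ≤ C * 1 := by linarith
      nlinarith
    · have h1 : G t ≤ G 1 := by
        have h2 : G 1 = G t + ∫ x in t..1, K x := by
          rw [hG]
          exact (intervalIntegral.integral_add_adjacent_intervals (hint 0 t) (hint t 1)).symm
        have h3 : 0 ≤ ∫ x in t..1, K x := intervalIntegral.integral_nonneg h fun x _ => hK0 x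
        linarith
      have h2 : 0 ≤ C * t ^ β := mul_nonneg hC0 (Real.rpow_nonneg ht _)
      linarith
  refine ⟨C * (2 ^ β + Real.Gamma (β + 1)), fun δ hδ0 hδ2 => ?_⟩
  have hφc : Continuous fun t => K t * Real.exp (-(δ * t)) := by fun_prop
  -- the two integrals
  have i1 : IntegrableOn (fun t : ℝ => Real.exp (-(δ * t))) (Ioi 0) := by
    have := integrableOn_rpow_mul_exp_neg_mul_rpow (p := 1) (s := 0) (b := δ) (by norm_num)
      one_pos hδ0
    refine this.congr_fun (fun t _ => ?_) measurableSet_Ioi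
    simp
  have i2 : IntegrableOn (fun t : ℝ => t ^ β * Real.exp (-(δ * t))) (Ioi 0) := by
    have := integrableOn_rpow_mul_exp_neg_mul_rpow (p := 1) (s := β) (b := δ) (by linarith)
      one_pos hδ0
    refine this.congr_fun (fun t _ => ?_) measurableSet_Ioi
    simp
  have v2 : ∫ t in Ioi (0 : ℝ), t ^ β * Real.exp (-(δ * t)) = δ ^ (-β) / δ * Real.Gamma (β + 1) := by
    have := Real.integral_rpow_mul_exp_neg_mul_Ioi (a := β + 1) (r := δ) (by linarith) hδ0
    rw [add_sub_cancel_right] at this
    rw [this]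
    congr 1
    rw [one_div, Real.inv_rpow hδ0.le, Real.rpow_add hδ0, Real.rpow_one, Real.rpow_neg hδ0.le,
      mul_inv, div_eq_mul_inv]
  have v1 : ∫ t in Ioi (0 : ℝ), Real.exp (-(δ * t)) = 1 / δ := by
    have := Real.integral_rpow_mul_exp_neg_mul_Ioi (a := 1) (r := δ) (by norm_num) hδ0
    rw [sub_self, Real.rpow_one, Real.Gamma_one, mul_one] at this
    rw [← this]
    refine setIntegral_congr_fun measurableSet_Ioi fun t _ => ?_
    simp
  obtain ⟨B, hB⟩ : ∃ B : ℝ, B = C * (1 + δ ^ (-β) * Real.Gamma (β + 1)) := ⟨_, rfl⟩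
  have hB0 : 0 ≤ B := by
    rw [hB]
    have : 0 ≤ δ ^ (-β) := Real.rpow_nonneg hδ0.le _
    positivity
  -- the bound for a finite interval
  have key : ∀ T : ℝ, 0 ≤ T → ∫ t in (0 : ℝ)..T, K t * Real.exp (-(δ * t)) ≤
      C * (1 + T ^ β) * Real.exp (-(δ * T)) + B := by
    intro T hT0
    have hu : ∀ x ∈ uIcc 0 T, HasDerivAt (fun t : ℝ => Real.exp (-(δ * t)))
        (Real.exp (-(δ * x)) * -δ) x := by
      intro x _
      have h1 : HasDerivAt (fun t : ℝ => -(δ * t)) (-δ) x := by
        simpa using ((hasDerivAt_id x).const_mul δ).fun_neg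
      exact h1.exp
    have h1 := intervalIntegral.integral_mul_deriv_eq_deriv_mul (a := 0) (b := T) hu
      (fun x _ => hGd x) (Continuous.intervalIntegrable (by fun_prop) _ _) (hint 0 T)
    have h2 : ∫ t in (0 : ℝ)..T, K t * Real.exp (-(δ * t)) =
        ∫ t in (0 : ℝ)..T, Real.exp (-(δ * t)) * K t := by
      refine intervalIntegral.integral_congr fun t _ => ?_
      exact mul_comm _ _
    rw [h2, h1, hG0, mul_zero, sub_zero]
    have h3 : -∫ t in (0 : ℝ)..T, Real.exp (-(δ * t)) * -δ * G t =
        ∫ t in (0 : ℝ)..T, δ * (Real.exp (-(δ * t)) * G t) := by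
      rw [← intervalIntegral.integral_neg]
      refine intervalIntegral.integral_congr fun t _ => ?_
      ring
    have h4 : ∫ t in (0 : ℝ)..T, δ * (Real.exp (-(δ * t)) * G t) ≤ B := by
      have h5 : IntegrableOn (fun t : ℝ => δ * (C * (Real.exp (-(δ * t)) +
          t ^ β * Real.exp (-(δ * t))))) (Ioi 0) := ((i1.add i2).const_mul C).const_mul δ
      calc ∫ t in (0 : ℝ)..T, δ * (Real.exp (-(δ * t)) * G t)
          ≤ ∫ t in (0 : ℝ)..T, δ * (C * (Real.exp (-(δ * t)) + t ^ β * Real.exp (-(δ * t)))) := by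
            refine intervalIntegral.integral_mono_on hT0
              (Continuous.intervalIntegrable (by fun_prop) _ _) ?_ ?_
            · rw [intervalIntegrable_iff_integrableOn_Ioc_of_le hT0]
              exact h5.mono_set Ioc_subset_Ioi_self
            · intro t ht
              have h6 := hGle t ht.1
              have h7 := Real.exp_pos (-(δ * t))
              have : Real.exp (-(δ * t)) * G t ≤ Real.exp (-(δ * t)) * (C * (1 + t ^ β)) := by
                gcongr
              calc δ * (Real.exp (-(δ * t)) * G t)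
                  ≤ δ * (Real.exp (-(δ * t)) * (C * (1 + t ^ β))) := by gcongr
                _ = _ := by ring
        _ ≤ ∫ t in Ioi (0 : ℝ), δ * (C * (Real.exp (-(δ * t)) + t ^ β * Real.exp (-(δ * t)))) := by
            rw [intervalIntegral.integral_of_le hT0]
            refine setIntegral_mono_set h5 ?_ (Ioc_subset_Ioi_self).eventuallyLE
            refine (ae_restrict_mem measurableSet_Ioi).mono fun t ht => ?_
            have ht' : 0 ≤ t := le_of_lt ht
            have : 0 ≤ t ^ β := Real.rpow_nonneg ht' _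
            show 0 ≤ δ * (C * (Real.exp (-(δ * t)) + t ^ β * Real.exp (-(δ * t))))
            positivity
        _ = B := by
            rw [integral_const_mul, integral_const_mul, integral_add i1 i2, v1, v2, hB]
            field_simp
    have h5 : Real.exp (-(δ * T)) * G T ≤ C * (1 + T ^ β) * Real.exp (-(δ * T)) := by
      rw [mul_comm]
      exact mul_le_mul_of_nonneg_right (hGle T hT0) (Real.exp_pos _).le
    linarith
  -- the first term tends to zero
  have hlim : Tendsto (fun T : ℝ => C * (1 + T ^ β) * Real.exp (-(δ * T)) + B) atTop (𝓝 B) := by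
    have h1 : Tendsto (fun T : ℝ => T ^ β * Real.exp (-δ * T)) atTop (𝓝 0) :=
      tendsto_rpow_mul_exp_neg_mul_atTop_nhds_zero β δ hδ0
    have h2 : Tendsto (fun T : ℝ => T ^ (0 : ℝ) * Real.exp (-δ * T)) atTop (𝓝 0) :=
      tendsto_rpow_mul_exp_neg_mul_atTop_nhds_zero 0 δ hδ0
    have h3 := ((h2.add h1).const_mul C).add_const B
    rw [add_zero, mul_zero, zero_add] at h3
    refine h3.congr fun T => ?_
    rw [Real.rpow_zero, neg_mul]
    ring
  have hint2 : IntegrableOn (fun t => K t * Real.exp (-(δ * t))) (Ioi 0) := by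
    refine integrableOn_Ioi_of_intervalIntegral_norm_bounded (l := atTop) (b := fun T : ℝ => T)
      (B + 1) 0 (fun T => ?_) tendsto_id ?_
    · exact (hφc.integrableOn_Icc (a := 0) (b := T)).mono_set Ioc_subset_Icc_self
    · filter_upwards [hlim.eventually (gt_mem_nhds (lt_add_one B)), eventually_ge_atTop 0] with T h1 h2
      refine le_trans (le_of_eq ?_) ((key T h2).trans h1.le)
      refine intervalIntegral.integral_congr fun t _ => ?_
      simp only [Real.norm_eq_abs]
      exact abs_of_nonneg (mul_nonneg (hK0 t) (Real.exp_pos _).le)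
  refine ⟨hint2, ?_⟩
  have h1 : Tendsto (fun T : ℝ => ∫ t in (0 : ℝ)..T, K t * Real.exp (-(δ * t))) atTop
      (𝓝 (∫ t in Ioi (0 : ℝ), K t * Real.exp (-(δ * t)))) :=
    intervalIntegral_tendsto_integral_Ioi 0 hint2 tendsto_id
  have h2 : ∫ t in Ioi (0 : ℝ), K t * Real.exp (-(δ * t)) ≤ B :=
    le_of_tendsto_of_tendsto h1 hlim ((eventually_ge_atTop 0).mono fun T hT0 => key T hT0)
  refine h2.trans ?_
  rw [hB]
  have h3 : 1 ≤ 2 ^ β * δ ^ (-β) := by
    rw [Real.rpow_neg hδ0.le, ← Real.inv_rpow hδ0.le, ← Real.mul_rpow (by norm_num) (by positivity)]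
    refine Real.one_le_rpow ?_ hβ
    rw [← div_eq_mul_inv, le_div_iff₀ hδ0]
    linarith
  have h4 : C * (1 + δ ^ (-β) * Real.Gamma (β + 1)) ≤
      C * (2 ^ β * δ ^ (-β) + δ ^ (-β) * Real.Gamma (β + 1)) := by gcongr
  refine h4.trans (le_of_eq ?_)
  ring

end Pool.Agent.Q208.BZ
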