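import Pool.Agent.Q155.BZ.Stm

set_option autoImplicit false

/-!
BZ-12: contradiction for Liouville numbers.
-/

open Complex Set Filter Topology

namespace Pool.Agent.Q208.BZ

open Pool.Agent.Q155.BZ

theorem lio (hD : S_DIO) : S_LIO := by
  intro a θ ha hθ hL F hF ε he0 he1 hC
  obtain ⟨C, hC⟩ := hC
  have hC1 : ∀ T : ℝ, 1 ≤ T → ∫ t in (1 : ℝ)..T, ‖F (1 + (t : ℂ) * I)‖ ≤ C * T ^ (1 + ε) := hC
  obtain ⟨C', hC'⟩ := hD a θ ha hθ F hF ε C he0 he1 hC1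
  -- for every `n` the number `2 ^ (n e - 1 - ε - 1/2)` is bounded by `C'`
  have key : ∀ n : ℕ, (2 : ℝ) ^ ((n : ℝ) * (1 / 2 - ε) - (1 / 2 + ε)) ≤ max C' 1 := by
    intro n
    by_cases hneg : (n : ℝ) * (1 / 2 - ε) - (1 / 2 + ε) ≤ 0
    · refine le_trans ?_ (le_max_right _ _)
      exact Real.rpow_le_one_of_one_le_of_nonpos (by norm_num) hneg
    push Not at hneg
    obtain ⟨p, b, hb, -, hlt⟩ := hL (n + 1)
    obtain ⟨q, rfl⟩ : ∃ q : ℕ, b = q := ⟨b.toNat, by omega⟩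
    have hq : 2 ≤ q := by omega
    have hq0 : (0 : ℝ) < q := by positivity
    have hq2 : (2 : ℝ) ≤ q := by exact_mod_cast hq
    have hq1 : (1 : ℝ) ≤ q := by linarith
    have hcast : (((q : ℤ) : ℝ)) = (q : ℝ) := by push_cast; rfl
    rw [hcast] at hlt
    have hδ0 : (0 : ℝ) < ((q : ℝ) ^ n)⁻¹ := by positivity
    have hδ1 : ((q : ℝ) ^ n)⁻¹ ≤ 1 := inv_le_one_of_one_le₀ (one_le_pow₀ hq1)
    have h1 : |(q : ℝ) * θ - p| ≤ ((q : ℝ) ^ n)⁻¹ := by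
      have h2 : (q : ℝ) * θ - p = q * (θ - p / q) := by field_simp
      rw [h2, abs_mul, abs_of_pos hq0]
      calc (q : ℝ) * |θ - p / q| ≤ q * (1 / (q : ℝ) ^ (n + 1)) := by gcongr
        _ = ((q : ℝ) ^ n)⁻¹ := by
          rw [pow_succ]
          field_simp
    have h3 := hC' q p _ (by omega) hδ0 hδ1 h1
    have h4 : (((q : ℝ) ^ n)⁻¹) ^ (-(1 / 2 - ε)) = (q : ℝ) ^ ((n : ℝ) * (1 / 2 - ε)) := by
      rw [← Real.rpow_natCast, ← Real.rpow_neg hq0.le, ← Real.rpow_mul hq0.le]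
      congr 1
      ring
    rw [h4] at h3
    have h5 : (q : ℝ) ^ ((n : ℝ) * (1 / 2 - ε) - (1 / 2 + ε)) ≤ C' := by
      rw [Real.rpow_sub hq0, div_le_iff₀ (Real.rpow_pos_of_pos hq0 _)]
      exact h3
    refine le_trans ?_ (h5.trans (le_max_left _ _))
    exact Real.rpow_le_rpow (by norm_num) hq2 hneg.le
  -- contradiction
  have hpos : 0 < 1 / 2 - ε := by linarith
  have ht : Tendsto (fun n : ℕ => (2 : ℝ) ^ ((n : ℝ) * (1 / 2 - ε) - (1 / 2 + ε))) atTop atTop := by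
    have h1 : Tendsto (fun n : ℕ => (n : ℝ) * (1 / 2 - ε) - (1 / 2 + ε)) atTop atTop :=
      tendsto_atTop_add_const_right _ _
        ((tendsto_natCast_atTop_atTop (R := ℝ)).atTop_mul_const hpos)
    exact (tendsto_rpow_atTop_of_base_gt_one 2 (by norm_num)).comp h1
  obtain ⟨n, hn⟩ := (ht.eventually_gt_atTop (max C' 1)).exists
  exact absurd (key n) (not_le.2 hn)

end Pool.Agent.Q208.BZ
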