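import Pool.Agent.Q155.BZ.Stm

set_option autoImplicit false

/-!
BZ-10: the generating function is large near `2 π i q`.
-/

open Complex Set Filter Topology

namespace Pool.Agent.Q208.BZ

open Pool.Agent.Q155.BZ

/-- `|1 - exp (-w)| ≤ |w|` on the right half plane -/
theorem norm_one_sub_exp {w : ℂ} (hw : 0 ≤ w.re) : ‖1 - Complex.exp (-w)‖ ≤ ‖w‖ := by
  have h1 : ∀ x ∈ {z : ℂ | 0 ≤ z.re}, HasDerivWithinAt (fun z : ℂ => 1 - Complex.exp (-z))
      (Complex.exp (-x)) {z : ℂ | 0 ≤ z.re} x := by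
    intro x _
    have := ((hasDerivAt_neg x).cexp.const_sub 1)
    simp only [mul_neg, mul_one, neg_neg] at this
    exact this.hasDerivWithinAt
  have h2 : ∀ x ∈ {z : ℂ | 0 ≤ z.re}, ‖Complex.exp (-x)‖ ≤ 1 := by
    intro x hx
    rw [Complex.norm_exp, Complex.neg_re]
    exact Real.exp_le_one_iff.2 (neg_nonpos.2 hx)
  have hc : Convex ℝ {z : ℂ | 0 ≤ z.re} := convex_halfSpace_re_ge 0
  have h3 := hc.norm_image_sub_le_of_norm_hasDerivWithin_le h1 h2
    (by simp : (0 : ℂ) ∈ {z : ℂ | 0 ≤ z.re}) (show w ∈ {z : ℂ | 0 ≤ z.re} from hw)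
  simpa using h3

theorem low : S_LOW := by
  intro a θ ha hθ
  refine ⟨Real.exp (-a) / (θ + 2 * Real.pi), 1 / θ + |b1 a θ|, by positivity, ?_⟩
  intro q p δ hq hδ0 hδ1 hp
  have hq1 : (1 : ℝ) ≤ q := by exact_mod_cast hq
  have hpi := Real.pi_pos
  have hpi3 := Real.pi_gt_three
  obtain ⟨z, hz⟩ : ∃ z : ℂ, z = (δ : ℂ) + ((2 * Real.pi * q : ℝ) : ℂ) * I := ⟨_, rfl⟩
  rw [← hz]
  have hre : z.re = δ := by rw [hz]; simp
  have him : z.im = 2 * Real.pi * q := by rw [hz]; simp
  have h2pq : 1 ≤ 2 * Real.pi * q := by nlinarith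
  have hzn1 : 2 * Real.pi * q ≤ ‖z‖ := by
    rw [← him]
    exact (le_abs_self _).trans (Complex.abs_im_le_norm z)
  have hzn2 : ‖z‖ ≤ δ + 2 * Real.pi * q := by
    refine (Complex.norm_le_abs_re_add_abs_im z).trans ?_
    rw [hre, him, abs_of_pos hδ0, abs_of_pos (by linarith)]
  have hz0 : z ≠ 0 := by
    intro h
    rw [h, norm_zero] at hzn1
    linarith
  constructor
  · -- the size
    have e1 : Complex.exp (-z) = Complex.exp (-(δ : ℂ)) := by
      rw [hz, Complex.exp_eq_exp_iff_exists_int]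
      refine ⟨-q, ?_⟩
      push_cast
      ring
    have n1 : ‖1 - Complex.exp (-z)‖ ≤ δ := by
      rw [e1]
      refine (norm_one_sub_exp (by rw [Complex.ofReal_re]; exact hδ0.le)).trans ?_
      rw [Complex.norm_real, Real.norm_eq_abs, abs_of_pos hδ0]
    have n1' : 1 - Complex.exp (-z) ≠ 0 := by
      rw [e1]
      intro h
      have h2 : Complex.exp (-(δ : ℂ)) = 1 := (sub_eq_zero.1 h).symm
      have h3 := congrArg norm h2
      rw [Complex.norm_exp, norm_one] at h3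
      simp only [Complex.neg_re, Complex.ofReal_re, Real.exp_eq_one_iff] at h3
      linarith
    have e2 : Complex.exp (-((θ : ℂ) * z)) =
        Complex.exp (-((θ * δ : ℝ) + ((2 * Real.pi * (q * θ - p) : ℝ) : ℂ) * I)) := by
      rw [hz, Complex.exp_eq_exp_iff_exists_int]
      refine ⟨-p, ?_⟩
      push_cast
      ring
    have hθδ : 0 < θ * δ := by positivity
    have n2 : ‖1 - Complex.exp (-((θ : ℂ) * z))‖ ≤ (θ + 2 * Real.pi) * δ := by
      rw [e2]
      refine (norm_one_sub_exp (by simp; positivity)).trans ?_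
      refine (Complex.norm_le_abs_re_add_abs_im _).trans ?_
      have r1 : (((θ * δ : ℝ) : ℂ) + ((2 * Real.pi * (q * θ - p) : ℝ) : ℂ) * I).re = θ * δ := by simp
      have r2 : (((θ * δ : ℝ) : ℂ) + ((2 * Real.pi * (q * θ - p) : ℝ) : ℂ) * I).im =
        2 * Real.pi * (q * θ - p) := by simp
      rw [r1, r2, abs_of_pos hθδ, abs_mul, abs_of_pos (by positivity : 0 < 2 * Real.pi)]
      nlinarith
    have n2' : 1 - Complex.exp (-((θ : ℂ) * z)) ≠ 0 := by
      intro h
      have h2 : Complex.exp (-((θ : ℂ) * z)) = 1 := (sub_eq_zero.1 h).symm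
      have h3 := congrArg norm h2
      rw [Complex.norm_exp, norm_one] at h3
      simp only [Complex.neg_re, Complex.mul_re, Complex.ofReal_re, Complex.ofReal_im, zero_mul,
        sub_zero, Real.exp_eq_one_iff, hre] at h3
      linarith
    have n3 : Real.exp (-a) ≤ ‖Complex.exp (-((a : ℂ) * z))‖ := by
      rw [Complex.norm_exp]
      refine Real.exp_le_exp.2 ?_
      simp only [Complex.neg_re, Complex.mul_re, Complex.ofReal_re, Complex.ofReal_im, zero_mul,
        sub_zero, hre]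
      nlinarith
    have hh : Real.exp (-a) / (θ + 2 * Real.pi) / δ ^ 2 ≤ ‖h a θ z‖ := by
      unfold h
      rw [norm_div, norm_mul]
      have p1 : 0 < ‖1 - Complex.exp (-z)‖ := norm_pos_iff.2 n1'
      have p2 : 0 < ‖1 - Complex.exp (-((θ : ℂ) * z))‖ := norm_pos_iff.2 n2'
      calc Real.exp (-a) / (θ + 2 * Real.pi) / δ ^ 2
          = Real.exp (-a) / (δ * ((θ + 2 * Real.pi) * δ)) := by
            field_simp
        _ ≤ _ := by gcongr
    have hs : ‖(((1 / θ : ℝ) : ℂ) / z ^ 2 + ((b1 a θ : ℝ) : ℂ) / z) * Complex.exp (-z)‖ ≤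
        1 / θ + |b1 a θ| := by
      have hz1 : 1 ≤ ‖z‖ := by linarith
      have e3 : ‖Complex.exp (-z)‖ ≤ 1 := by
        rw [Complex.norm_exp, Complex.neg_re, hre]
        exact Real.exp_le_one_iff.2 (by linarith)
      rw [norm_mul]
      have e4 : ‖((1 / θ : ℝ) : ℂ) / z ^ 2 + ((b1 a θ : ℝ) : ℂ) / z‖ ≤ 1 / θ + |b1 a θ| := by
        refine (norm_add_le _ _).trans ?_
        rw [norm_div, norm_div, norm_pow, Complex.norm_real, Complex.norm_real, Real.norm_eq_abs,
          Real.norm_eq_abs, abs_of_pos (by positivity : 0 < 1 / θ)]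
        exact add_le_add (div_le_self (by positivity) (one_le_pow₀ hz1))
          (div_le_self (abs_nonneg _) hz1)
      calc _ ≤ (1 / θ + |b1 a θ|) * 1 := by gcongr
        _ = _ := mul_one _
    unfold f
    calc Real.exp (-a) / (θ + 2 * Real.pi) / δ ^ 2 - (1 / θ + |b1 a θ|) ≤ ‖h a θ z‖ -
          ‖(((1 / θ : ℝ) : ℂ) / z ^ 2 + ((b1 a θ : ℝ) : ℂ) / z) * Complex.exp (-z)‖ := by linarith
      _ ≤ _ := norm_sub_norm_le _ _
  · -- the argument
    have h1 : |z.arg| ≤ Real.pi / 2 := Complex.abs_arg_le_pi_div_two_iff.2 (by rw [hre]; exact hδ0.le)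
    have h2 : Real.sin (Real.pi / 2 - |z.arg|) = δ / ‖z‖ := by
      rw [Real.sin_pi_div_two_sub, Real.cos_abs, Complex.cos_arg hz0, hre]
    have h3 : Real.sin (Real.pi / 2 - |z.arg|) ≤ Real.pi / 2 - |z.arg| := Real.sin_le (by linarith)
    rw [h2] at h3
    refine le_trans ?_ h3
    have hz1 : 0 < ‖z‖ := norm_pos_iff.2 hz0
    gcongr
    linarith

end Pool.Agent.Q208.BZ
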