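import Pool.Agent.Q155.BZ.Stm

set_option autoImplicit false

/-!
BZ-3: the generating function near `0`.
-/

open Set Filter Topology

namespace Pool.Agent.Q208.BZ

open Pool.Agent.Q155.BZ

/-- division by `z` -/
theorem dsl_an {g : ℂ → ℂ} (hg : AnalyticAt ℂ g 0) : AnalyticAt ℂ (dslope g 0) 0 := by
  obtain ⟨p, hp⟩ := hg
  exact hp.has_fpower_series_dslope_fslope.analyticAt

theorem dsl_eq (g : ℂ → ℂ) (z : ℂ) : g z = g 0 + z * dslope g 0 z := by
  have := sub_smul_dslope g 0 z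
  rw [sub_zero, smul_eq_mul] at this
  rw [this]
  ring

/-- Taylor expansion of order two -/
theorem taylor_two {g : ℂ → ℂ} (hg : AnalyticAt ℂ g 0) : ∃ D : ℂ → ℂ, AnalyticAt ℂ D 0 ∧
    ∀ z, g z = g 0 + deriv g 0 * z + z ^ 2 * D z := by
  refine ⟨dslope (dslope g 0) 0, dsl_an (dsl_an hg), fun z => ?_⟩
  rw [dsl_eq g z, dsl_eq (dslope g 0) z, dslope_same]
  ring

/-- `(1 - exp (-w)) / w` -/
noncomputable def psi : ℂ → ℂ := dslope (fun w : ℂ => 1 - Complex.exp (-w)) 0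

theorem one_sub_exp_eq (w : ℂ) : 1 - Complex.exp (-w) = w * psi w := by
  have := dsl_eq (fun w : ℂ => 1 - Complex.exp (-w)) w
  simp only [neg_zero, Complex.exp_zero, sub_self, zero_add] at this
  exact this

theorem hd_g (w : ℂ) : HasDerivAt (fun w : ℂ => 1 - Complex.exp (-w)) (Complex.exp (-w)) w := by
  have := ((hasDerivAt_neg w).cexp.const_sub 1)
  simpa using this

theorem psi_an : AnalyticAt ℂ psi 0 := dsl_an (by fun_prop)

theorem psi_zero : psi 0 = 1 := by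
  unfold psi
  rw [dslope_same, (hd_g 0).deriv]
  simp

theorem psi_deriv : deriv psi 0 = -(1 / 2) := by
  -- differentiate `1 - exp (-w) = w ψ w` twice
  have h1 : ∀ᶠ w in 𝓝 (0 : ℂ), AnalyticAt ℂ psi w := psi_an.eventually_analyticAt
  have h2 : (fun w : ℂ => Complex.exp (-w)) =ᶠ[𝓝 0] fun w => psi w + w * deriv psi w := by
    filter_upwards [h1] with w hw
    have h3 := (hasDerivAt_id w).mul hw.differentiableAt.hasDerivAt
    have h4 : (id * psi : ℂ → ℂ) = fun w : ℂ => 1 - Complex.exp (-w) := by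
      funext w
      rw [one_sub_exp_eq]
      rfl
    rw [h4] at h3
    have h5 := (hd_g w).unique h3
    rw [h5, one_mul]
    rfl
  have h3 : HasDerivAt (fun w : ℂ => Complex.exp (-w)) (-1) 0 := by
    have := (hasDerivAt_neg (0 : ℂ)).cexp
    simpa using this
  have h4 : HasDerivAt (fun w => psi w + w * deriv psi w) (deriv psi 0 + (1 * deriv psi 0 +
      0 * deriv (deriv psi) 0)) 0 := by
    refine psi_an.differentiableAt.hasDerivAt.add ?_
    exact (hasDerivAt_id (0 : ℂ)).mul psi_an.deriv.differentiableAt.hasDerivAt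
  have h5 := h3.unique (h4.congr_of_eventuallyEq h2)
  linear_combination -h5 / 2

/-- `z ^ 2 h(z)` -/
noncomputable def Gf (a θ : ℝ) (z : ℂ) : ℂ :=
  Complex.exp (-((a : ℂ) * z)) / (θ * (psi z * psi (θ * z)))

theorem Gf_eq (a θ : ℝ) {z : ℂ} (hz : z ≠ 0) : Gf a θ z = z ^ 2 * h a θ z := by
  unfold Gf h
  rw [one_sub_exp_eq, one_sub_exp_eq]
  have : z * psi z * ((θ : ℂ) * z * psi (θ * z)) = z ^ 2 * (θ * (psi z * psi (θ * z))) := by ring
  rw [this, mul_comm (z ^ 2), div_mul_eq_mul_div, mul_comm (z ^ 2),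
    mul_div_mul_right _ _ (pow_ne_zero 2 hz)]

theorem psi_th_an (θ : ℝ) : AnalyticAt ℂ (fun z : ℂ => psi (θ * z)) 0 := by
  have h1 : AnalyticAt ℂ (fun z : ℂ => (θ : ℂ) * z) 0 := by fun_prop
  have h2 : AnalyticAt ℂ psi ((θ : ℂ) * 0) := by
    rw [mul_zero]
    exact psi_an
  exact AnalyticAt.fun_comp h2 h1

theorem Gf_an (a : ℝ) {θ : ℝ} (hθ : 0 < θ) : AnalyticAt ℂ (Gf a θ) 0 := by
  unfold Gf
  refine AnalyticAt.div (by fun_prop) (analyticAt_const.mul (psi_an.mul (psi_th_an θ))) ?_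
  simp only [Pi.mul_apply, mul_zero, psi_zero, mul_one]
  exact_mod_cast hθ.ne'

/-- `z ^ 2 h(z) exp z` -/
noncomputable def Hf (a θ : ℝ) (z : ℂ) : ℂ := Gf a θ z * Complex.exp z

theorem Hf_zero (a : ℝ) {θ : ℝ} : Hf a θ 0 = ((1 / θ : ℝ) : ℂ) := by
  unfold Hf Gf
  simp [psi_zero]

theorem Hf_deriv (a : ℝ) {θ : ℝ} (hθ : 0 < θ) : deriv (Hf a θ) 0 = ((b1 a θ : ℝ) : ℂ) := by
  have hθ' : (θ : ℂ) ≠ 0 := by exact_mod_cast hθ.ne'
  have h1 : HasDerivAt (fun z : ℂ => psi z) (-(1 / 2)) 0 := by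
    rw [← psi_deriv]
    exact psi_an.differentiableAt.hasDerivAt
  have h2 : HasDerivAt (fun z : ℂ => psi (θ * z)) (-(1 / 2) * (θ : ℂ)) 0 := by
    have h3 : HasDerivAt (fun z : ℂ => (θ : ℂ) * z) (θ : ℂ) 0 := by
      simpa using (hasDerivAt_id (0 : ℂ)).const_mul (θ : ℂ)
    have h4 : HasDerivAt psi (-(1 / 2)) ((θ : ℂ) * 0) := by
      rw [mul_zero]
      exact h1
    exact h4.comp (0 : ℂ) h3
  have h3 : HasDerivAt (fun z : ℂ => (θ : ℂ) * (psi z * psi (θ * z)))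
      ((θ : ℂ) * (-(1 / 2) * psi ((θ : ℂ) * 0) + psi 0 * (-(1 / 2) * (θ : ℂ)))) 0 :=
    (h1.mul h2).const_mul (θ : ℂ)
  have h4 : HasDerivAt (fun z : ℂ => Complex.exp (-((a : ℂ) * z))) (-(a : ℂ)) 0 := by
    have h5 : HasDerivAt (fun z : ℂ => -((a : ℂ) * z)) (-(a : ℂ)) 0 := by
      simpa using ((hasDerivAt_id (0 : ℂ)).const_mul (a : ℂ)).fun_neg
    have := h5.cexp
    simpa using this
  have h5 : HasDerivAt (fun z : ℂ => Complex.exp z) 1 0 := by
    simpa using Complex.hasDerivAt_exp 0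
  have hne : (θ : ℂ) * (psi 0 * psi ((θ : ℂ) * 0)) ≠ 0 := by
    rw [mul_zero, psi_zero, mul_one, mul_one]
    exact hθ'
  have h6 := ((h4.div h3 hne).mul h5).deriv
  have h7 : deriv (Hf a θ) 0 = _ := h6
  rw [h7]
  simp only [mul_zero, neg_zero, Complex.exp_zero, psi_zero, mul_one, Pi.div_apply]
  unfold b1
  push_cast
  field_simp
  ring

theorem near : S_NEAR := by
  intro a θ hθ
  have hG := Gf_an a hθ
  have hH : AnalyticAt ℂ (Hf a θ) 0 := hG.mul (by fun_prop)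
  obtain ⟨D, hD, hDe⟩ := taylor_two hH
  obtain ⟨ρ, hρ, hb⟩ : ∃ ρ : ℝ, 0 < ρ ∧ ∀ z : ℂ, ‖z‖ ≤ ρ → ‖D z‖ ≤ ‖D 0‖ + 1 := by
    have h1 : ∀ᶠ z in 𝓝 (0 : ℂ), ‖D z‖ < ‖D 0‖ + 1 :=
      hD.continuousAt.norm.eventually (gt_mem_nhds (lt_add_one _))
    obtain ⟨r, hr, h2⟩ := Metric.eventually_nhds_iff.1 h1
    refine ⟨r / 2, by positivity, fun z hz => (h2 ?_).le⟩
    rw [dist_zero_right]
    linarith
  refine ⟨ρ, hρ, ⟨‖D 0‖ + 1, fun z hz1 hz2 => ?_⟩, Gf a θ, hG, fun z hz1 _ => ?_⟩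
  · have hz0 : z ≠ 0 := by
      rintro rfl
      simp at hz1
    have h1 := hDe z
    rw [Hf_zero, Hf_deriv a hθ] at h1
    have h2 : f a θ z = D z * Complex.exp (-z) := by
      have h3 : h a θ z = Gf a θ z / z ^ 2 := by
        rw [Gf_eq a θ hz0]
        field_simp
      have h4 : Gf a θ z = Hf a θ z * Complex.exp (-z) := by
        unfold Hf
        rw [mul_assoc, ← Complex.exp_add, add_neg_cancel, Complex.exp_zero, mul_one]
      unfold f
      rw [h3, h4, h1]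
      field_simp
      ring
    rw [h2, norm_mul]
    have h3 : ‖Complex.exp (-z)‖ ≤ 1 := by
      rw [Complex.norm_exp, Complex.neg_re]
      exact Real.exp_le_one_iff.2 (by linarith)
    have h4 := hb z hz2
    calc ‖D z‖ * ‖Complex.exp (-z)‖ ≤ (‖D 0‖ + 1) * 1 := by gcongr
      _ = _ := mul_one _
  · exact Gf_eq a θ (by rintro rfl; simp at hz1)

end Pool.Agent.Q208.BZ
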