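import Pool.Agent.Q155.BZ.Stm

set_option autoImplicit false

/-!
BZ-13: uniqueness of the continuation.
-/

open Complex Set Filter Topology

namespace Pool.Agent.Q208.BZ

open Pool.Agent.Q155.BZ

theorem uni : S_UNI := by
  intro a θ F F' hF hF' s h1 h2
  have hU : {s : ℂ | s ≠ 1 ∧ s ≠ 2} = ({1, 2} : Set ℂ)ᶜ := by
    ext z
    simp
  have hopen : IsOpen {s : ℂ | s ≠ 1 ∧ s ≠ 2} := by
    rw [hU]
    exact (Set.toFinite _).isClosed.isOpen_compl
  have hcon : IsPreconnected {s : ℂ | s ≠ 1 ∧ s ≠ 2} := by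
    rw [hU]
    refine (Set.Countable.isConnected_compl_of_one_lt_rank ?_ (Set.toFinite _).countable).isPreconnected
    rw [Complex.rank_real_complex]
    norm_num
  have hev : F =ᶠ[𝓝 3] F' := by
    have : {z : ℂ | 2 < z.re} ∈ 𝓝 (3 : ℂ) := by
      refine (isOpen_lt continuous_const Complex.continuous_re).mem_nhds ?_
      show (2 : ℝ) < (3 : ℂ).re
      norm_num
    filter_upwards [this] with z hz
    rw [hF.2 z hz, hF'.2 z hz]
  exact AnalyticOnNhd.eqOn_of_preconnected_of_eventuallyEq (hF.1.analyticOnNhd hopen)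
    (hF'.1.analyticOnNhd hopen) hcon (by constructor <;> norm_num) hev ⟨h1, h2⟩

end Pool.Agent.Q208.BZ
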